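import Mathlib

namespace Pool.Agent.H.MP_68720f_al

variable (F : Type) [Field F]

/-- underlying space of dimension `2 ^ n` -/
def V : ℕ → Type
  | 0 => F
  | n + 1 => V n × V n

instance instAdd : (n : ℕ) → AddCommGroup (V F n)
  | 0 => inferInstanceAs (AddCommGroup F)
  | n + 1 => letI := instAdd n; inferInstanceAs (AddCommGroup (V F n × V F n))

instance instMod : (n : ℕ) → Module F (V F n)
  | 0 => inferInstanceAs (Module F F)
  | n + 1 => letI := instMod n; inferInstanceAs (Module F (V F n × V F n))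

variable {F}

/-- the involution -/
def conj : (n : ℕ) → V F n → V F n
  | 0 => fun a => a
  | 1 => fun a => (a.1 + a.2, -a.2)
  | n + 2 => fun a => (conj (n + 1) a.1, -a.2)

/-- product in the ground field -/
def fm (a b : V F 0) : V F 0 := @HMul.hMul F F F _ a b

/-- the product -/
def mul (α : F) (γ : ℕ → F) : (n : ℕ) → V F n → V F n → V F n
  | 0 => fm
  | 1 => fun a b => (fm a.1 b.1 + α • fm a.2 b.2, fm a.1 b.2 + fm a.2 b.1 + fm a.2 b.2)
  | n + 2 => fun a b =>
      (mul α γ (n + 1) a.1 b.1 + γ (n + 2) • mul α γ (n + 1) (conj (n + 1) b.2) a.2,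
        mul α γ (n + 1) b.2 a.1 + mul α γ (n + 1) a.2 (conj (n + 1) b.1))

theorem add_fst {n : ℕ} (a b : V F (n + 1)) : (a + b).1 = a.1 + b.1 := rfl
theorem add_snd {n : ℕ} (a b : V F (n + 1)) : (a + b).2 = a.2 + b.2 := rfl
theorem smul_fst {n : ℕ} (c : F) (a : V F (n + 1)) : (c • a).1 = c • a.1 := rfl
theorem smul_snd {n : ℕ} (c : F) (a : V F (n + 1)) : (c • a).2 = c • a.2 := rfl

theorem fm_add (a b c : V F 0) : fm a (b + c) = fm a b + fm a c := mul_add (R := F) a b c
theorem add_fm (a b c : V F 0) : fm (a + b) c = fm a c + fm b c := add_mul (R := F) a b c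
theorem fm_smul (r : F) (a b : V F 0) : fm a (r • b) = r • fm a b := mul_left_comm (G := F) a r b
theorem smul_fm (r : F) (a b : V F 0) : fm (r • a) b = r • fm a b := mul_assoc (G := F) r a b

theorem conj_add : ∀ (n : ℕ) (a b : V F n), conj n (a + b) = conj n a + conj n b
  | 0, _, _ => rfl
  | 1, a, b => Prod.ext (by simp only [conj, add_fst, add_snd]; abel)
      (by simp only [conj, add_snd]; abel)
  | n + 2, a, b => Prod.ext (conj_add (n + 1) a.1 b.1) (by simp only [conj, add_snd]; abel)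

theorem conj_smul : ∀ (n : ℕ) (r : F) (a : V F n), conj n (r • a) = r • conj n a
  | 0, _, _ => rfl
  | 1, r, a => Prod.ext (by simp only [conj, smul_fst, smul_snd, smul_add])
      (by simp only [conj, smul_snd, smul_neg])
  | n + 2, r, a => Prod.ext (conj_smul (n + 1) r a.1) (by simp only [conj, smul_snd, smul_neg])

theorem mul_lin (α : F) (γ : ℕ → F) : ∀ n : ℕ,
    (∀ a b c : V F n, mul α γ n a (b + c) = mul α γ n a b + mul α γ n a c) ∧
    (∀ a b c : V F n, mul α γ n (a + b) c = mul α γ n a c + mul α γ n b c) ∧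
    (∀ (r : F) (a b : V F n), mul α γ n a (r • b) = r • mul α γ n a b) ∧
    (∀ (r : F) (a b : V F n), mul α γ n (r • a) b = r • mul α γ n a b)
  | 0 => ⟨fm_add, add_fm, fm_smul, smul_fm⟩
  | 1 => by
    refine ⟨fun a b c => ?_, fun a b c => ?_, fun r a b => ?_, fun r a b => ?_⟩ <;>
    refine Prod.ext ?_ ?_ <;>
    simp only [mul, add_fst, add_snd, smul_fst, smul_snd, fm_add, add_fm, fm_smul, smul_fm] <;>
    module
  | n + 2 => by
    obtain ⟨h1, h2, h3, h4⟩ := mul_lin α γ (n + 1)
    refine ⟨fun a b c => ?_, fun a b c => ?_, fun r a b => ?_, fun r a b => ?_⟩ <;>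
    refine Prod.ext ?_ ?_ <;>
    simp only [mul, add_fst, add_snd, smul_fst, smul_snd, h1, h2, h3, h4, conj_add, conj_smul] <;>
    module

/-- the algebra obtained by `n` steps of the doubling process -/
def CD (_α : F) (_γ : ℕ → F) (n : ℕ) : Type := V F n

variable (α : F) (γ : ℕ → F) (n : ℕ)

instance : AddCommGroup (CD α γ n) := instAdd F n
instance : Module F (CD α γ n) := instMod F n

instance : NonUnitalNonAssocRing (CD α γ n) where
  mul := mul α γ n
  left_distrib := (mul_lin α γ n).1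
  right_distrib := (mul_lin α γ n).2.1
  zero_mul a := by
    have h := (mul_lin α γ n).2.2.2 0 0 a
    rw [zero_smul, zero_smul] at h
    exact h
  mul_zero a := by
    have h := (mul_lin α γ n).2.2.1 0 a 0
    rw [zero_smul, zero_smul] at h
    exact h

instance : IsScalarTower F (CD α γ n) (CD α γ n) := ⟨(mul_lin α γ n).2.2.2⟩
instance : SMulCommClass F (CD α γ n) (CD α γ n) :=
  ⟨fun r a b => ((mul_lin α γ n).2.2.1 r a b).symm⟩

/-- simple algebra -/
def IsSimpleAlg (F A : Type) [Field F] [NonUnitalNonAssocRing A] [Module F A] : Prop :=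
  (∃ a b : A, a * b ≠ 0) ∧
    ∀ I : Submodule F A, (∀ a : A, ∀ x ∈ I, a * x ∈ I ∧ x * a ∈ I) → I = ⊥ ∨ I = ⊤

/-- `B` satisfies every polynomial identity of `A` -/
def InVar (F A B : Type) [Field F] [NonUnitalNonAssocRing A] [Module F A] [IsScalarTower F A A]
    [SMulCommClass F A A] [NonUnitalNonAssocRing B] [Module F B] [IsScalarTower F B B]
    [SMulCommClass F B B] : Prop :=
  ∀ f : FreeNonUnitalNonAssocAlgebra F ℕ,
    (∀ φ : ℕ → A, FreeNonUnitalNonAssocAlgebra.lift F φ f = 0) →
      ∀ ψ : ℕ → B, FreeNonUnitalNonAssocAlgebra.lift F ψ f = 0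

/-- for some `m` all products of `m` elements of `S`, in every bracketing, vanish -/
def IsNilp {B : Type} [Mul B] [Zero B] (S : Set B) : Prop :=
  ∃ m : ℕ, 1 ≤ m ∧ ∀ t : FreeMagma S, t.length = m → FreeMagma.lift Subtype.val t = 0

end Pool.Agent.H.MP_68720f_al
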