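import Pool.Agent.H.MP_68720f_al.Defs

set_option maxHeartbeats 400000

namespace Pool.Agent.H.MP_68720f_al

variable {F : Type} [Field F]

def toF (a : V F 0) : F := a
def ofF (a : F) : V F 0 := a

theorem toF_ofF (a : F) : toF (ofF a) = a := rfl
theorem toF_add (a b : V F 0) : toF (a + b) = toF a + toF b := rfl
theorem toF_neg (a : V F 0) : toF (-a) = -toF a := rfl
theorem toF_sub (a b : V F 0) : toF (a - b) = toF a - toF b := rfl
theorem toF_smul (r : F) (a : V F 0) : toF (r • a) = r * toF a := rfl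
theorem toF_fm (a b : V F 0) : toF (fm a b) = toF a * toF b := rfl
theorem toF_zero : toF (0 : V F 0) = 0 := rfl
theorem toF_ext {a b : V F 0} (h : toF a = toF b) : a = b := h

theorem neg_fst {n : ℕ} (a : V F (n + 1)) : (-a).1 = -a.1 := rfl
theorem neg_snd {n : ℕ} (a : V F (n + 1)) : (-a).2 = -a.2 := rfl
theorem sub_fst {n : ℕ} (a b : V F (n + 1)) : (a - b).1 = a.1 - b.1 := rfl
theorem sub_snd {n : ℕ} (a b : V F (n + 1)) : (a - b).2 = a.2 - b.2 := rfl
theorem zero_fst {n : ℕ} : (0 : V F (n + 1)).1 = 0 := rfl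
theorem zero_snd {n : ℕ} : (0 : V F (n + 1)).2 = 0 := rfl

/-- pairing -/
def pr {n : ℕ} (a b : V F n) : V F (n + 1) := (a, b)
theorem pr_fst {n : ℕ} (a b : V F n) : (pr a b).1 = a := rfl
theorem pr_snd {n : ℕ} (a b : V F n) : (pr a b).2 = b := rfl
theorem vext {n : ℕ} {a b : V F (n + 1)} (h1 : a.1 = b.1) (h2 : a.2 = b.2) : a = b :=
  Prod.ext h1 h2

theorem conj1_fst (a : V F 1) : (conj 1 a).1 = a.1 + a.2 := rfl
theorem conj1_snd (a : V F 1) : (conj 1 a).2 = -a.2 := rfl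
theorem conj2_fst (n : ℕ) (a : V F (n + 2)) : (conj (n + 2) a).1 = conj (n + 1) a.1 := rfl
theorem conj2_snd (n : ℕ) (a : V F (n + 2)) : (conj (n + 2) a).2 = -a.2 := rfl

theorem conj0_fst (a : V F (0 + 1)) : (conj (0 + 1) a).1 = a.1 + a.2 := rfl
theorem conj0_snd (a : V F (0 + 1)) : (conj (0 + 1) a).2 = -a.2 := rfl

variable (α : F) (γ : ℕ → F)

theorem mul0_fst (a b : V F (0 + 1)) :
    (mul α γ (0 + 1) a b).1 = fm a.1 b.1 + α • fm a.2 b.2 := rfl
theorem mul0_snd (a b : V F (0 + 1)) :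
    (mul α γ (0 + 1) a b).2 = fm a.1 b.2 + fm a.2 b.1 + fm a.2 b.2 := rfl
theorem mul1_fst (a b : V F 1) : (mul α γ 1 a b).1 = fm a.1 b.1 + α • fm a.2 b.2 := rfl
theorem mul1_snd (a b : V F 1) : (mul α γ 1 a b).2 = fm a.1 b.2 + fm a.2 b.1 + fm a.2 b.2 := rfl
theorem mul2_fst (n : ℕ) (a b : V F (n + 2)) : (mul α γ (n + 2) a b).1 =
    mul α γ (n + 1) a.1 b.1 + γ (n + 2) • mul α γ (n + 1) (conj (n + 1) b.2) a.2 := rfl
theorem mul2_snd (n : ℕ) (a b : V F (n + 2)) : (mul α γ (n + 2) a b).2 =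
    mul α γ (n + 1) b.2 a.1 + mul α γ (n + 1) a.2 (conj (n + 1) b.1) := rfl

theorem mul_zero' (n : ℕ) (a : V F n) : mul α γ n a 0 = 0 :=
  mul_zero (M₀ := CD α γ n) a
theorem zero_mul' (n : ℕ) (a : V F n) : mul α γ n 0 a = 0 :=
  zero_mul (M₀ := CD α γ n) a
theorem mul_neg' (n : ℕ) (a b : V F n) : mul α γ n a (-b) = -mul α γ n a b :=
  mul_neg (α := CD α γ n) a b
theorem neg_mul' (n : ℕ) (a b : V F n) : mul α γ n (-a) b = -mul α γ n a b :=
  neg_mul (α := CD α γ n) a b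

theorem conj_zero (n : ℕ) : conj n (0 : V F n) = 0 := by
  have h := conj_smul n (0 : F) (0 : V F n)
  rwa [zero_smul, zero_smul] at h

def one : (n : ℕ) → V F n
  | 0 => ofF 1
  | n + 1 => pr (one n) 0

theorem one_fst (n : ℕ) : (one (n + 1) : V F (n + 1)).1 = one n := rfl
theorem one_snd (n : ℕ) : (one (n + 1) : V F (n + 1)).2 = 0 := rfl
theorem toF_one : toF (one 0 : V F 0) = 1 := rfl

def tr : (n : ℕ) → V F (n + 1) → F
  | 0 => fun a => 2 * toF a.1 + toF a.2
  | n + 1 => fun a => tr n a.1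

def bil : (n : ℕ) → V F (n + 1) → V F (n + 1) → F
  | 0 => fun a b => toF b.1 * (2 * toF a.1 + toF a.2) + toF b.2 * (toF a.1 - 2 * α * toF a.2)
  | n + 1 => fun a b => bil n a.1 b.1 - γ (n + 2) * bil n a.2 b.2

theorem conj_one : ∀ n : ℕ, conj n (one n : V F n) = one n
  | 0 => rfl
  | 1 => vext (by rw [conj1_fst, one_fst, one_snd, add_zero]) (by rw [conj1_snd, one_snd, neg_zero])
  | n + 2 => vext (by rw [conj2_fst, one_fst, conj_one (n + 1)])
      (by rw [conj2_snd, one_snd, neg_zero])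

theorem one_mul_one : ∀ (n : ℕ) (a : V F (n + 1)),
    mul α γ (n + 1) (one (n + 1)) a = a ∧ mul α γ (n + 1) a (one (n + 1)) = a
  | 0, a => by
    refine ⟨vext (toF_ext ?_) (toF_ext ?_), vext (toF_ext ?_) (toF_ext ?_)⟩ <;>
    simp only [mul0_fst, mul0_snd, one_fst, one_snd, toF_add, toF_smul, toF_fm, toF_zero,
      toF_one] <;> ring
  | n + 1, a => by
    refine ⟨vext ?_ ?_, vext ?_ ?_⟩ <;>
    simp only [mul2_fst, mul2_snd, one_fst, one_snd, mul_zero', zero_mul', conj_zero, conj_one,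
      (one_mul_one n _).1, (one_mul_one n _).2, smul_zero, add_zero, zero_add]

theorem add_conj : ∀ (n : ℕ) (a : V F (n + 1)), conj (n + 1) a = tr n a • one (n + 1) - a
  | 0, a => by
    refine vext (toF_ext ?_) (toF_ext ?_) <;>
    simp only [conj0_fst, conj0_snd, sub_fst, sub_snd, smul_fst, smul_snd, one_fst, one_snd,
      toF_add, toF_neg, toF_sub, toF_smul, toF_zero, toF_one, tr] <;> ring
  | n + 1, a => by
    refine vext ?_ ?_
    · rw [conj2_fst, add_conj n]; rfl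
    · rw [conj2_snd, sub_snd, smul_snd, one_snd, smul_zero, zero_sub]

theorem bil_eq : ∀ (n : ℕ) (a b : V F (n + 1)),
    mul α γ (n + 1) (conj (n + 1) a) b + mul α γ (n + 1) (conj (n + 1) b) a =
      bil α γ n a b • one (n + 1)
  | 0, a, b => by
    refine vext (toF_ext ?_) (toF_ext ?_) <;>
    simp only [conj0_fst, conj0_snd, mul0_fst, mul0_snd, add_fst, add_snd, smul_fst,
      smul_snd, one_fst, one_snd, toF_add, toF_neg, toF_smul, toF_fm, toF_zero, toF_one, bil] <;> ring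
  | n + 1, a, b => by
    have h1 := bil_eq n a.1 b.1
    have h2 := bil_eq n a.2 b.2
    refine vext ?_ ?_
    · simp only [add_fst, mul2_fst, conj2_fst, conj2_snd, mul_neg', smul_fst, one_fst, bil]
      rw [sub_smul, mul_smul, ← h1, ← h2]
      module
    · simp only [add_snd, mul2_snd, conj2_fst, conj2_snd, neg_mul', smul_snd, one_snd, smul_zero]
      abel

theorem bil_zero : ∀ (n : ℕ) (a : V F (n + 1)), bil α γ n a 0 = 0
  | 0, a => by simp only [bil, zero_fst, zero_snd, toF_zero]; ring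
  | n + 1, a => by simp only [bil, zero_fst, zero_snd, bil_zero n]; ring

theorem bil_nondeg (hα : 1 + 4 * α ≠ 0) (hγ : ∀ k, γ k ≠ 0) :
    ∀ (n : ℕ) (a : V F (n + 1)), (∀ b, bil α γ n a b = 0) → a = 0
  | 0, a, h => by
    have h1 := h (pr (ofF 1) (ofF 0))
    have h2 := h (pr (ofF 0) (ofF 1))
    simp only [bil, pr_fst, pr_snd, toF_ofF] at h1 h2
    have h3 : toF a.1 = 0 := by
      apply mul_left_cancel₀ hα
      linear_combination 2 * α * h1 + h2
    refine vext (toF_ext ?_) (toF_ext ?_)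
    · rw [h3]; rfl
    · rw [zero_snd, toF_zero]; linear_combination h1 - 2 * h3
  | n + 1, a, h => by
    refine vext (bil_nondeg hα hγ n a.1 fun b => ?_) (bil_nondeg hα hγ n a.2 fun b => ?_)
    · have h1 := h (pr b 0)
      simp only [bil, pr_fst, pr_snd, bil_zero] at h1
      linear_combination h1
    · have h1 := h (pr 0 b)
      simp only [bil, pr_fst, pr_snd, bil_zero] at h1
      apply mul_left_cancel₀ (hγ (n + 2))
      linear_combination -h1

theorem exists_ne_conj : ∀ n : ℕ, ∃ p : V F (n + 1), p - conj (n + 1) p ≠ 0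
  | 0 => ⟨pr (ofF 0) (ofF 1), fun h => by
      have h1 := congrArg (fun x : V F (0 + 1) => toF x.1) h
      simp only [sub_fst, conj0_fst, pr_fst, pr_snd, toF_sub, toF_add, toF_ofF, zero_fst,
        toF_zero] at h1
      simp at h1⟩
  | n + 1 => by
    obtain ⟨p, hp⟩ := exists_ne_conj n
    exact ⟨pr p 0, fun h => hp (congrArg (fun x : V F (n + 2) => x.1) h)⟩

theorem tr_zero : ∀ n : ℕ, tr n (0 : V F (n + 1)) = 0
  | 0 => by simp only [tr, zero_fst, zero_snd, toF_zero]; ring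
  | n + 1 => tr_zero n

theorem one_ne : ∀ n : ℕ, (one n : V F n) ≠ 0
  | 0 => one_ne_zero (α := F)
  | n + 1 => fun h => one_ne n (congrArg (fun x : V F (n + 1) => x.1) h)

theorem simple (hα : 1 + 4 * α ≠ 0) (hγ : ∀ k, γ k ≠ 0) (n : ℕ) :
    IsSimpleAlg F (CD α γ (n + 2)) := by
  refine ⟨⟨one (n + 2), one (n + 2), ?_⟩, fun I hI => ?_⟩
  · show mul α γ (n + 2) _ _ ≠ 0
    rw [(one_mul_one α γ (n + 1) _).1]
    exact one_ne _
  change Submodule F (V F (n + 2)) at I
  have hI' : ∀ a : V F (n + 2), ∀ x ∈ I, mul α γ (n + 2) a x ∈ I ∧ mul α γ (n + 2) x a ∈ I := hI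
  have key : ∀ x ∈ I, ∀ y, bil α γ (n + 1) x y • one (n + 2) - tr (n + 1) x • y ∈ I := by
    intro x hx y
    have h := bil_eq α γ (n + 1) x y
    rw [add_conj (n + 1) x, sub_eq_add_neg, (mul_lin α γ _).2.1, (mul_lin α γ _).2.2.2, neg_mul',
      (one_mul_one α γ (n + 1) _).1] at h
    rw [← h]
    have := I.sub_mem (hI' (conj (n + 2) y) x hx).1 (hI' y x hx).2
    convert this using 1
    abel
  have key0 : ∀ x ∈ I, x ≠ 0 → tr (n + 1) x = 0 → I = ⊤ := by
    intro x hx h0 ht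
    obtain ⟨y, hy⟩ : ∃ y, bil α γ (n + 1) x y ≠ 0 := by
      by_contra hc
      push Not at hc
      exact h0 (bil_nondeg α γ hα hγ _ x hc)
    have h := key x hx y
    rw [ht, zero_smul, sub_zero] at h
    have h1 : one (n + 2) ∈ I := (I.smul_mem_iff hy).1 h
    refine eq_top_iff.2 fun z _ => ?_
    have := (hI' z _ h1).1
    rwa [(one_mul_one α γ (n + 1) _).2] at this
  by_cases hb : I = ⊥
  · exact Or.inl hb
  right
  obtain ⟨x, hx, h0⟩ := (Submodule.ne_bot_iff I).1 hb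
  by_cases ht : tr (n + 1) x = 0
  · exact key0 x hx h0 ht
  obtain ⟨p, hp⟩ := exists_ne_conj (F := F) n
  have hcomm : ∀ y z, mul α γ (n + 2) y z - mul α γ (n + 2) z y ∈ I := by
    intro y z
    have h := key x hx y
    have h1 := I.sub_mem (hI' z _ h).1 (hI' z _ h).2
    rw [sub_eq_add_neg (_ • one (n + 2)), (mul_lin α γ _).1, (mul_lin α γ _).2.1, mul_neg', neg_mul',
      (mul_lin α γ _).2.2.1, (mul_lin α γ _).2.2.1, (mul_lin α γ _).2.2.2, (mul_lin α γ _).2.2.2,
      (one_mul_one α γ (n + 1) _).1, (one_mul_one α γ (n + 1) _).2] at h1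
    refine (I.smul_mem_iff ht).1 ?_
    convert h1 using 1
    module
  have hw : mul α γ (n + 2) (pr p 0) (pr 0 (one (n + 1))) -
      mul α γ (n + 2) (pr 0 (one (n + 1))) (pr p 0) = pr 0 (p - conj (n + 1) p) := by
    refine vext ?_ ?_ <;>
    simp only [sub_fst, sub_snd, mul2_fst, mul2_snd, pr_fst, pr_snd, mul_zero', zero_mul', conj_zero,
      (one_mul_one α γ n _).1, smul_zero, add_zero, zero_add, sub_zero]
  have hw2 := hcomm (pr p 0) (pr 0 (one (n + 1)))
  rw [hw] at hw2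
  exact key0 _ hw2 (fun h => hp (congrArg (fun x : V F (n + 2) => x.2) h)) (tr_zero n)

def u4 : V F 4 := 
  (pr (pr (pr (pr (ofF (0)) (ofF (0))) (pr (ofF (0)) (ofF (1)))) (pr (pr (ofF (0)) (ofF (0))) (pr
  (ofF (0)) (ofF (0))))) (pr (pr (pr (ofF (1)) (ofF (0))) (pr (ofF (1)) (ofF (0)))) (pr (pr (ofF
  (0)) (ofF (0))) (pr (ofF (0)) (ofF (0))))))
def v4 : V F 4 := 
  (pr (pr (pr (pr (ofF (0)) (ofF (0))) (pr (ofF (0)) (ofF (0)))) (pr (pr (ofF (0)) (ofF (1))) (pr
  (ofF (0)) (ofF (0))))) (pr (pr (pr (ofF (0)) (ofF (0))) (pr (ofF (0)) (ofF (0)))) (pr (pr (ofF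
  (0)) (ofF (-1))) (pr (ofF (0)) (ofF (0))))))

theorem pair4 : mul (0 : F) (fun _ => 1) 4 u4 u4 = 0 ∧ mul (0 : F) (fun _ => 1) 4 v4 v4 = 0 ∧
    mul (0 : F) (fun _ => 1) 4 u4 v4 = v4 ∧ mul (0 : F) (fun _ => 1) 4 v4 u4 = -v4 := by
  refine ⟨?_, ?_, ?_, ?_⟩ <;>
  refine vext ?_ ?_ <;> refine vext ?_ ?_ <;> refine vext ?_ ?_ <;> refine vext ?_ ?_ <;>
  apply toF_ext <;>
  simp only [u4, v4, mul2_fst, mul2_snd, mul1_fst, mul1_snd, conj2_fst, conj2_snd, conj1_fst,
    conj1_snd, add_fst, add_snd, smul_fst, smul_snd, neg_fst, neg_snd, zero_fst, zero_snd, pr_fst,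
    pr_snd, toF_add, toF_neg, toF_smul, toF_fm, toF_zero, toF_ofF, Nat.reduceAdd] <;> ring

theorem pair (n : ℕ) : ∃ u v : V F (n + 4), v ≠ 0 ∧
    mul (0 : F) (fun _ => 1) (n + 4) u u = 0 ∧ mul (0 : F) (fun _ => 1) (n + 4) v v = 0 ∧
    mul (0 : F) (fun _ => 1) (n + 4) u v = v ∧ mul (0 : F) (fun _ => 1) (n + 4) v u = -v := by
  induction n with
  | zero =>
    refine ⟨u4, v4, fun h => ?_, pair4⟩
    have h1 := congrArg (fun x : V F 4 => toF x.1.2.1.2) h
    exact one_ne_zero (α := F) h1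
  | succ n ih =>
    obtain ⟨u, v, h0, h1, h2, h3, h4⟩ := ih
    have e : ∀ a b : V F (n + 4), mul (0 : F) (fun _ => 1) (n + 3 + 2) (pr a 0) (pr b 0) =
        pr (mul (0 : F) (fun _ => 1) (n + 4) a b) 0 := by
      intro a b
      refine vext ?_ ?_ <;>
      simp only [mul2_fst, mul2_snd, pr_fst, pr_snd, mul_zero', zero_mul', smul_zero, add_zero]
    refine ⟨pr u 0, pr v 0, fun h => h0 (congrArg (fun x : V F (n + 4 + 1) => x.1) h), ?_, ?_, ?_, ?_⟩
    · exact (e u u).trans (by rw [h1]; rfl)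
    · exact (e v v).trans (by rw [h2]; rfl)
    · exact (e u v).trans (by rw [h3])
    · exact (e v u).trans (by rw [h4]; exact vext rfl (by rw [neg_snd, pr_snd, pr_snd, neg_zero]))

theorem general {A : Type} [NonUnitalNonAssocRing A] [Module F A] [IsScalarTower F A A]
    [SMulCommClass F A A] (u v : A) (h0 : v ≠ 0) (h1 : u * u = 0) (h2 : v * v = 0) (h3 : u * v = v)
    (h4 : v * u = -v) :
    ∃ (B : Type) (_ : NonUnitalNonAssocRing B) (_ : Module F B) (_ : IsScalarTower F B B)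
      (_ : SMulCommClass F B B), (∀ x y : B, x * y = -(y * x)) ∧ (∀ x : B, x * x = 0) ∧
        InVar F A B ∧
        ∃ T : Finset B, ¬ IsNilp (NonUnitalAlgebra.adjoin F (T : Set B) : Set B) := by
  classical
  have hm : ∀ a b c d : F, (a • u + b • v) * (c • u + d • v) = (a * d - b * c) • v := by
    intro a b c d
    simp only [mul_add, add_mul, smul_mul_assoc, mul_smul_comm, h1, h2, h3, h4]
    module
  let S : NonUnitalSubalgebra F A :=
    { carrier := {x | ∃ a b : F, x = a • u + b • v}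
      add_mem' := by
        rintro _ _ ⟨a, b, rfl⟩ ⟨c, d, rfl⟩
        exact ⟨a + c, b + d, by module⟩
      zero_mem' := ⟨0, 0, by module⟩
      mul_mem' := by
        rintro _ _ ⟨a, b, rfl⟩ ⟨c, d, rfl⟩
        exact ⟨0, a * d - b * c, by rw [hm]; module⟩
      smul_mem' := by
        rintro r _ ⟨a, b, rfl⟩
        exact ⟨r * a, r * b, by module⟩ }
  refine ⟨S, inferInstance, inferInstance, inferInstance, inferInstance, ?_, ?_, ?_, ?_⟩
  · rintro ⟨_, a, b, rfl⟩ ⟨_, c, d, rfl⟩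
    apply Subtype.ext
    show (a • u + b • v) * (c • u + d • v) = -((c • u + d • v) * (a • u + b • v))
    rw [hm, hm]; module
  · rintro ⟨_, a, b, rfl⟩
    apply Subtype.ext
    show (a • u + b • v) * (a • u + b • v) = 0
    rw [hm]; module
  · intro f hf ψ
    have e : (NonUnitalSubalgebraClass.subtype S).comp (FreeNonUnitalNonAssocAlgebra.lift F ψ) =
        FreeNonUnitalNonAssocAlgebra.lift F (fun i => (ψ i : A)) := by
      apply FreeNonUnitalNonAssocAlgebra.hom_ext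
      intro i
      simp
    have e2 := DFunLike.congr_fun e f
    rw [hf] at e2
    exact Subtype.ext e2
  · let u' : S := ⟨u, 1, 0, by module⟩
    let v' : S := ⟨v, 0, 1, by module⟩
    refine ⟨{u', v'}, ?_⟩
    rintro ⟨m, hm1, hm2⟩
    have hu : u' ∈ (NonUnitalAlgebra.adjoin F (({u', v'} : Finset S) : Set S) : Set S) :=
      NonUnitalAlgebra.subset_adjoin F (by simp)
    have hv : v' ∈ (NonUnitalAlgebra.adjoin F (({u', v'} : Finset S) : Set S) : Set S) :=
      NonUnitalAlgebra.subset_adjoin F (by simp)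
    have key : ∀ k : ℕ, ∃ t : FreeMagma
        (NonUnitalAlgebra.adjoin F (({u', v'} : Finset S) : Set S) : Set S),
        t.length = k + 1 ∧ FreeMagma.lift Subtype.val t = v' := by
      intro k
      induction k with
      | zero => exact ⟨FreeMagma.of ⟨v', hv⟩, rfl, rfl⟩
      | succ k ih =>
        obtain ⟨t, ht1, ht2⟩ := ih
        refine ⟨FreeMagma.of ⟨u', hu⟩ * t, ?_, ?_⟩
        · show 1 + t.length = _
          omega
        · rw [map_mul, ht2]
          exact Subtype.ext h3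
    obtain ⟨t, ht1, ht2⟩ := key (m - 1)
    have := hm2 t (by omega)
    rw [ht2] at this
    exact h0 (congrArg Subtype.val this)

end Pool.Agent.H.MP_68720f_al
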